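import Pool.Agent.Results.MP_d6ddbd_nt.QuarticsByFiniteChecks
import Pool.Agent.X257.AE.Pencil
import Pool.Agent.X257.AE.Zero

/-!
# A partial algorithm for curves of genus one, at the prefixes of almost every real number

The partial computable function `φ` decides correctly (where it is defined) whether `f(x, y) = 0` has
infinitely many rational zeros. For a real number `α` and a base `b ≥ 2` let `t_n = ⌊α b ^ n⌋` be the
prefixes of the expansion of `α` in base `b`. We show: for almost every real `α`, for ALL balanced pencils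
`y² = x (x - A) (x - B)`, `A = D(t) u₀(t)`, `B = D(t) u₁(t)` and all bases `b`, for all `n` outside of
a set of logarithmic density zero, `φ` is defined at all the everywhere locally solvable quartics
`y² = β x⁴ - (A + B) x² + A B / β` (`β` a squarefree divisor of `A B`) attached to `t = t_n` except for a
proportion at most `n ^ (-η)`, for every `η < κ log 2`. For the prefixes of lengths `s_0, s_1, ...` with
`s_(j + 1) ≥ 2 s_j` the exceptional set has natural density zero.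
-/

set_option autoImplicit false

namespace Pool.Agent.Results.MP_d6ddbd_nt.AlmostEveryPrefix

open Finset Polynomial Filter MeasureTheory

open Pool.Agent.Results.MP_d6ddbd_nt.QuarticsByFiniteChecks
  (Zeros quartic Solvable ELS Undecided u D SqMod v κ Balanced)

/-- the data of a pencil: integers `a_k`, `c`, and polynomials `f_{k,i}` (`k = 0, 1, 2`, `i < n_k`), `g_i`
(`i < m`) -/
structure Pencil where
  /-- numbers of factors of the `u_k` -/
  n : Fin 3 → ℕ
  /-- number of factors of `D` -/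
  m : ℕ
  /-- constants -/
  a : Fin 3 → ℤ
  /-- factors of the `u_k` -/
  f : ∀ k : Fin 3, Fin (n k) → ℤ[X]
  /-- constant -/
  c : ℤ
  /-- factors of `D` -/
  g : Fin m → ℤ[X]

namespace Pencil

/-- `u₀ - u₁ = u₂` for `u_k = a_k ∏ f_{k,i}`, the integers `a_k` and `c` are not zero, the polynomials
`f_{k,i}`, `g_i` are irreducible of positive degree and pairwise not associated, and the balance condition
of `QuarticsByFiniteChecks` is satisfied -/
structure Ok (P : Pencil) : Prop where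
  a_ne : ∀ k, P.a k ≠ 0
  c_ne : P.c ≠ 0
  irr_f : ∀ k i, Irreducible (P.f k i) ∧ 0 < (P.f k i).natDegree
  irr_g : ∀ i, Irreducible (P.g i) ∧ 0 < (P.g i).natDegree
  not_ff : ∀ k i l j, (⟨k, i⟩ : Σ k : Fin 3, Fin (P.n k)) ≠ ⟨l, j⟩ →
    ¬ Associated (P.f k i) (P.f l j)
  not_gg : ∀ i j, i ≠ j → ¬ Associated (P.g i) (P.g j)
  not_fg : ∀ k i j, ¬ Associated (P.f k i) (P.g j)
  sub : u P.a P.f 0 - u P.a P.f 1 = u P.a P.f 2
  bal : Balanced P.a P.f P.c P.g

/-- `A = D(t) u₀(t)` for `k = 0`, `B = D(t) u₁(t)` for `k = 1`, and `A - B` for `k = 2` -/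
noncomputable def val (P : Pencil) (k : Fin 3) (t : ℤ) : ℤ := (D P.c P.g * u P.a P.f k).eval t

/-- `A`, `B` and `A - B` are not zero, and `φ` is defined at all the everywhere locally solvable quartics
attached to `t` except for at most `ρ` times their number -/
def Good (P : Pencil) (φ : List (List ℤ) →. Bool) (ρ : ℝ) (t : ℤ) : Prop :=
  P.val 0 t ≠ 0 ∧ P.val 1 t ≠ 0 ∧ P.val 0 t ≠ P.val 1 t ∧
    ((Undecided φ (P.val 0 t) (P.val 1 t)).ncard : ℝ) ≤
      ρ * ((ELS (P.val 0 t) (P.val 1 t)).ncard : ℝ)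

end Pencil

open Classical in
/-- the set has logarithmic density zero -/
def LogDensityZero (S : Set ℕ) : Prop := ∀ ε : ℝ, 0 < ε → ∀ᶠ x : ℕ in atTop,
  ∑ n ∈ (Icc 1 x).filter (fun n => n ∈ S), 1 / (n : ℝ) ≤ ε * Real.log x

open Classical in
/-- the set has natural density zero -/
def DensityZero (S : Set ℕ) : Prop := ∀ ε : ℝ, 0 < ε → ∀ᶠ x : ℕ in atTop,
  (((range x).filter (fun j => j ∈ S)).card : ℝ) ≤ ε * x

/-! ### Proof -/

instance : Countable Pencil := by
  have h : Function.Injective (fun P : Pencil => (⟨(P.n, P.m), P.a, P.f, P.c, P.g⟩ :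
      Σ nm : (Fin 3 → ℕ) × ℕ, (Fin 3 → ℤ) × (∀ k : Fin 3, Fin (nm.1 k) → ℤ[X]) × ℤ ×
        (Fin nm.2 → ℤ[X]))) := by
    rintro ⟨n, m, a, f, c, g⟩ ⟨n', m', a', f', c', g'⟩ h
    simp only [Sigma.mk.injEq, Prod.mk.injEq] at h
    obtain ⟨⟨rfl, rfl⟩, h⟩ := h
    simp only [heq_eq_eq, Prod.mk.injEq] at h
    obtain ⟨rfl, rfl, rfl, rfl⟩ := h
    rfl
  exact h.countable

/-- the exceptional set -/
def Bad (P : Pencil) (φ : List (List ℤ) →. Bool) (q : ℝ) : Set ℤ :=
  {t | ¬ P.Good φ ((Real.log (2 + |(t : ℝ)|)) ^ (-q)) t}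

theorem log_le {N : ℤ} {M : ℕ} (hM : 4 ≤ M) (hN : |N| ≤ (M : ℤ) ^ 3) {t : ℤ}
    (ht : t ∈ Ioc N (N + M)) : Real.log (2 + |(t : ℝ)|) ≤ 4 * Real.log M := by
  rw [mem_Ioc] at ht
  have h1 : |t| ≤ (M : ℤ) ^ 3 + M := by
    have h2 := neg_abs_le N
    have h3 := le_abs_self N
    rw [abs_le]
    constructor
    · have : (0 : ℤ) ≤ M := by positivity
      linarith
    · linarith
  have h2 : 2 + |t| ≤ (M : ℤ) ^ 4 := by
    have h3 : (4 : ℤ) ≤ M := by exact_mod_cast hM
    have h4 : (M : ℤ) ^ 4 = (M : ℤ) ^ 3 * M := by ring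
    have h5 : (M : ℤ) ≤ (M : ℤ) ^ 3 := le_self_pow₀ (by linarith) (by norm_num)
    have h6 : (0 : ℤ) ≤ (M : ℤ) ^ 3 := by positivity
    rw [h4]
    nlinarith
  have h3 : 2 + |(t : ℝ)| ≤ (M : ℝ) ^ 4 := by exact_mod_cast h2
  have h4 := Real.log_le_log (by positivity) h3
  rw [Real.log_pow] at h4
  exact_mod_cast h4

open Classical in
theorem dens_bad (φ : List (List ℤ) →. Bool) (P : Pencil)
    (hφ : ∀ (δ ε : ℝ), 0 < δ → 0 < ε → ∃ M₀ : ℕ, ∀ (N : ℤ) (M : ℕ), M₀ ≤ M → |N| ≤ (M : ℤ) ^ 3 →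
      (((Ioc N (N + (M : ℤ))).filter (fun t => ¬ ∀ A B : ℤ,
        A = (D P.c P.g * u P.a P.f 0).eval t → B = (D P.c P.g * u P.a P.f 1).eval t →
        A ≠ 0 ∧ B ≠ 0 ∧ A ≠ B ∧ ((Undecided φ A B).ncard : ℝ) ≤
          (Real.log M) ^ (δ - κ P.a P.f P.c P.g * Real.log 2) * ((ELS A B).ncard : ℝ))).card : ℝ) ≤
        ε * M)
    {q : ℝ} (hq0 : 0 ≤ q) (hq : q < κ P.a P.f P.c P.g * Real.log 2) (ε : ℝ) (hε : 0 < ε) :
    ∃ M0 : ℕ, Pool.Agent.X257.AE.Dens (Bad P φ q) ε M0 := by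
  set δ := (κ P.a P.f P.c P.g * Real.log 2 - q) / 2 with hδdef
  have hδ : 0 < δ := by rw [hδdef]; linarith
  have hexp : δ - κ P.a P.f P.c P.g * Real.log 2 = -q - δ := by rw [hδdef]; ring
  obtain ⟨M1, hM1⟩ := hφ δ ε hδ hε
  have hlog : Tendsto (fun x : ℕ => (Real.log (x : ℝ)) ^ δ) atTop atTop :=
    (tendsto_rpow_atTop hδ).comp (Real.tendsto_log_atTop.comp tendsto_natCast_atTop_atTop)
  obtain ⟨M2, hM2⟩ := (hlog.eventually_ge_atTop ((4 : ℝ) ^ q)).exists_forall_of_atTop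
  refine ⟨M1 + M2 + 4, fun N M hM hN => ?_⟩
  refine le_trans (Nat.cast_le.2 (card_le_card fun t ht => ?_)) (hM1 N M (by omega) hN)
  obtain ⟨ht1, ht2⟩ := mem_filter.1 ht
  refine mem_filter.2 ⟨ht1, fun h => ht2 ?_⟩
  obtain ⟨k1, k2, k3, k4⟩ := h _ _ rfl rfl
  refine ⟨k1, k2, k3, k4.trans (mul_le_mul_of_nonneg_right ?_ (Nat.cast_nonneg _))⟩
  have hMr : (4 : ℝ) ≤ M := by
    have : 4 ≤ M := by omega
    exact_mod_cast this
  have hlM : 0 < Real.log M := Real.log_pos (by linarith)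
  have hlt : 0 < Real.log (2 + |(t : ℝ)|) := Real.log_pos (by linarith [abs_nonneg (t : ℝ)])
  have h1 : (4 * Real.log M) ^ (-q) ≤ (Real.log (2 + |(t : ℝ)|)) ^ (-q) :=
    Real.rpow_le_rpow_of_nonpos hlt (log_le (by omega) hN ht1) (by linarith)
  refine le_trans ?_ h1
  rw [hexp, Real.mul_rpow (by norm_num) hlM.le, sub_eq_add_neg, Real.rpow_add hlM, mul_comm]
  refine mul_le_mul_of_nonneg_right ?_ (by positivity)
  rw [Real.rpow_neg hlM.le, Real.rpow_neg (by norm_num)]
  exact inv_anti₀ (by positivity) (hM2 M (by omega))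

/-- from the size of the prefix to its number -/
theorem good_of {α : ℝ} (hα : α ≠ 0) {b : ℕ} (hb : 2 ≤ b) (P : Pencil)
    (φ : List (List ℤ) →. Bool) {η q : ℝ} (hη : 0 ≤ η) (hq : η < q) : ∀ᶠ n : ℕ in atTop,
    ¬ P.Good φ ((n : ℝ) ^ (-η)) ⌊α * (b : ℝ) ^ n⌋ → Pool.Agent.X257.AE.pre b n α ∈ Bad P φ q := by
  have hl2 : 0 < Real.log 2 := Real.log_pos (by norm_num)
  have h1 : Tendsto (fun x : ℕ => (x : ℝ) ^ (q - η)) atTop atTop :=
    (tendsto_rpow_atTop (by linarith)).comp tendsto_natCast_atTop_atTop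
  filter_upwards [Pool.Agent.X257.AE.log_pre_ge hα hb,
    h1.eventually_ge_atTop ((Real.log 2 / 2) ^ (-q)), eventually_ge_atTop 1] with n h2 h3 h4 h5 h6
  apply h5
  obtain ⟨k1, k2, k3, k4⟩ := h6
  refine ⟨k1, k2, k3, k4.trans (mul_le_mul_of_nonneg_right ?_ (Nat.cast_nonneg _))⟩
  have hn : (0 : ℝ) < n := by exact_mod_cast h4
  refine (Real.rpow_le_rpow_of_nonpos (by positivity) h2 (by linarith)).trans ?_
  rw [Real.mul_rpow (by positivity) hn.le]
  have h7 : (n : ℝ) ^ (-η) = (n : ℝ) ^ (q - η) * (n : ℝ) ^ (-q) := by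
    rw [← Real.rpow_add hn]
    congr 1
    ring
  rw [h7]
  exact mul_le_mul_of_nonneg_right h3 (by positivity)

/-- **Theorem.** There is a partial computable function `φ` from the lists of lists of integers
(polynomials `f(x, y)`) to `{true, false}` such that
(1) if `φ(f)` is defined, then it is `true` if and only if `f` has infinitely many rational zeros; in fact
`f` has no rational zeros then;
(2) let `A`, `B`, `A - B` be nonzero and let `β` be a squarefree divisor of `A B`: if the curve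
`C : y² = β x⁴ - (A + B) x² + A B / β` does not have points everywhere locally, then `φ` is defined at
`C`;
(3) for almost every real `α`, for all pencils `P` which satisfy the conditions `Ok`, all `0 ≤ η < κ log 2`
and all bases `b ≥ 2`, for all `n` outside of a set of logarithmic density zero, for
`t = ⌊α b ^ n⌋`, the numbers `A = D(t) u₀(t)`, `B = D(t) u₁(t)` and `A - B` are not zero and `φ` is
defined at all the curves `C : y² = β x⁴ - (A + B) x² + A B / β` with points everywhere locally (`β` a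
squarefree divisor of `A B`) except for at most `n ^ (-η)` times their number;
(4) for all sequences `s` with `s_0 ≥ 1`, `s_(j + 1) ≥ 2 s_j`, for almost every real `α`, for all `P`,
`η` and `b` the same is true with `n = s_j` for all `j` outside of a set of natural density zero. -/
theorem result :
    ∃ φ : List (List ℤ) →. Bool, Partrec φ ∧
    (∀ L, ∀ r ∈ φ L, (r = true ↔ (Zeros L).Infinite)) ∧ (∀ L, (φ L).Dom → Zeros L = ∅) ∧
    (∀ A B β : ℤ, A ≠ 0 → B ≠ 0 → A ≠ B → Squarefree β → β ∣ A * B → β ∉ ELS A B →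
      (φ (quartic A B β)).Dom) ∧
    (∀ᵐ α : ℝ, ∀ P : Pencil, P.Ok → ∀ η : ℝ, 0 ≤ η → η < κ P.a P.f P.c P.g * Real.log 2 →
      ∀ b : ℕ, 2 ≤ b → LogDensityZero {n | ¬ P.Good φ ((n : ℝ) ^ (-η)) ⌊α * (b : ℝ) ^ n⌋}) ∧
    ∀ s : ℕ → ℕ, 1 ≤ s 0 → (∀ j, 2 * s j ≤ s (j + 1)) →
      ∀ᵐ α : ℝ, ∀ P : Pencil, P.Ok → ∀ η : ℝ, 0 ≤ η → η < κ P.a P.f P.c P.g * Real.log 2 →
        ∀ b : ℕ, 2 ≤ b →
          DensityZero {j | ¬ P.Good φ (((s j : ℕ) : ℝ) ^ (-η)) ⌊α * (b : ℝ) ^ s j⌋} := by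
  classical
  obtain ⟨φ, h1, h2, h3, h4, h5⟩ := Pool.Agent.Results.MP_d6ddbd_nt.QuarticsByFiniteChecks.result
  refine ⟨φ, h1, h2, h3, h4, ?_, fun s hs0 hs => ?_⟩
  · have hne : ∀ᵐ α : ℝ, α ≠ 0 := by
      rw [ae_iff]
      simp
    have h6 : ∀ᵐ α : ℝ, ∀ P : Pencil, P.Ok → ∀ q : ℚ, 0 ≤ (q : ℝ) →
        (q : ℝ) < κ P.a P.f P.c P.g * Real.log 2 → ∀ b : ℕ, 2 ≤ b → ∀ ε : ℝ, 0 < ε →
        ∀ᶠ x : ℕ in atTop, ∑ n ∈ (Icc 1 x).filter
          (fun n => Pool.Agent.X257.AE.pre b n α ∈ Bad P φ q), 1 / (n : ℝ) ≤ ε * Real.log x := by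
      rw [ae_all_iff]
      intro P
      by_cases hP : P.Ok
      swap
      · exact Eventually.of_forall fun α h => absurd h hP
      simp only [hP, forall_true_left]
      rw [ae_all_iff]
      intro q
      by_cases hq : 0 ≤ (q : ℝ) ∧ (q : ℝ) < κ P.a P.f P.c P.g * Real.log 2
      swap
      · exact Eventually.of_forall fun α h h' => absurd ⟨h, h'⟩ hq
      have h7 := Pool.Agent.X257.AE.ae_log_zero (dens_bad φ P (fun δ ε hδ hε => by
        obtain ⟨M₀, hM₀⟩ := h5 P.n P.m P.a P.f P.c P.g hP.a_ne hP.c_ne hP.irr_f hP.irr_g hP.not_ff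
          hP.not_gg hP.not_fg hP.sub hP.bal δ ε 3 hδ hε
        exact ⟨M₀, fun N M hM hN => (hM₀ N M hM hN).2⟩) hq.1 hq.2)
      filter_upwards [h7] with α hα _ _ b hb ε hε
      filter_upwards [hα b hb ε hε] with x hx
      exact hx
    filter_upwards [h6, hne] with α hα hα0 P hP η hη hη' b hb ε hε
    obtain ⟨q, hq1, hq2⟩ := exists_rat_btwn hη'
    have h8 := Pool.Agent.X257.AE.logzero_mono (good_of hα0 hb P φ hη hq1)
      (hα P hP q (hη.trans hq1.le) hq2 b hb) hε
    filter_upwards [h8] with x hx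
    convert hx using 3
  · have hne : ∀ᵐ α : ℝ, α ≠ 0 := by
      rw [ae_iff]
      simp
    have h6 : ∀ᵐ α : ℝ, ∀ P : Pencil, P.Ok → ∀ q : ℚ, 0 ≤ (q : ℝ) →
        (q : ℝ) < κ P.a P.f P.c P.g * Real.log 2 → ∀ b : ℕ, 2 ≤ b → ∀ ε : ℝ, 0 < ε →
        ∀ᶠ x : ℕ in atTop, (((range x).filter
          (fun j => Pool.Agent.X257.AE.pre b (s j) α ∈ Bad P φ q)).card : ℝ) ≤ ε * x := by
      rw [ae_all_iff]
      intro P
      by_cases hP : P.Ok
      swap
      · exact Eventually.of_forall fun α h => absurd h hP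
      simp only [hP, forall_true_left]
      rw [ae_all_iff]
      intro q
      by_cases hq : 0 ≤ (q : ℝ) ∧ (q : ℝ) < κ P.a P.f P.c P.g * Real.log 2
      swap
      · exact Eventually.of_forall fun α h h' => absurd ⟨h, h'⟩ hq
      have h7 := Pool.Agent.X257.AE.ae_seq_zero (dens_bad φ P (fun δ ε hδ hε => by
        obtain ⟨M₀, hM₀⟩ := h5 P.n P.m P.a P.f P.c P.g hP.a_ne hP.c_ne hP.irr_f hP.irr_g hP.not_ff
          hP.not_gg hP.not_fg hP.sub hP.bal δ ε 3 hδ hε
        exact ⟨M₀, fun N M hM hN => (hM₀ N M hM hN).2⟩) hq.1 hq.2) s hs0 hs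
      filter_upwards [h7] with α hα _ _ b hb ε hε
      filter_upwards [hα b hb ε hε] with x hx
      exact hx
    have hst : Tendsto s atTop atTop := by
      have h7 : ∀ j, j ≤ s j := by
        intro j
        induction j with
        | zero => exact Nat.zero_le _
        | succ j ih =>
          have h8 := hs j
          have h9 : 1 ≤ s j := by
            clear ih h8
            induction j with
            | zero => exact hs0
            | succ j ih => have := hs j; omega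
          omega
      exact tendsto_atTop_mono h7 tendsto_id
    filter_upwards [h6, hne] with α hα hα0 P hP η hη hη' b hb ε hε
    obtain ⟨q, hq1, hq2⟩ := exists_rat_btwn hη'
    have h8 := Pool.Agent.X257.AE.zero_mono (hst.eventually (good_of hα0 hb P φ hη hq1))
      (hα P hP q (hη.trans hq1.le) hq2 b hb) hε
    filter_upwards [h8] with x hx
    convert hx using 3

end Pool.Agent.Results.MP_d6ddbd_nt.AlmostEveryPrefix
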