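import Mathlib
import Pool.Agent.TH841.AL.Fin
import Pool.Agent.TH841.FD.Main3
import Pool.Agent.TH841.FD.Covl

/-!
# A partial algorithm for curves of genus one, for almost all coprime pairs

As in the starting result `QuarticsByFiniteChecks` there is a partial computable function `φ` on the
set of the polynomials `f(x, y)` with integer coefficients (lists of coefficient lists), which, where it
is defined, answers correctly the question whether `f(x, y) = 0` has infinitely many rational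
solutions. There `φ` is shown to be defined for most of the curves of genus one
`C : y² = b x⁴ - (A + B) x² + A B / b` (`b` a squarefree divisor of `A B`) with points everywhere locally
attached to the members of certain one-parameter families `(A, B)`. Here this is proved for almost all
the pairs `(A, B) = (D u, D v)` with coprime `u`, `v` of every short square, that is for the
two-parameter family of the curves `y² = x (x - D u) (x - D v)`, `D` fixed, without any condition.
-/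

set_option autoImplicit false

namespace Pool.Agent.Results.MP_d6ddbd_nt.CoprimePairsByFiniteChecks

open Finset

/-- the set `Z_f(ℚ)` of the rational zeros of `f = ∑ L_(i,j) x^i y^j` -/
def Zeros (L : List (List ℤ)) : Set (ℚ × ℚ) := {p : ℚ × ℚ |
  ∑ i ∈ Finset.range L.length, ∑ j ∈ Finset.range (L.getD i []).length,
    (((L.getD i []).getD j 0 : ℤ) : ℚ) * p.1 ^ i * p.2 ^ j = 0}

/-- the polynomial `y² - (b x⁴ - (A + B) x² + A B / b)` -/
def quartic (A B b : ℤ) : List (List ℤ) := [[-(A * B / b), 0, 1], [], [A + B], [], [-b]]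

/-- the curve `C : N² = b M⁴ - (A + B) M² e² + (A B / b) e⁴` has a point over `K`, with
`(M, e) ≠ (0, 0)` -/
def Solvable (K : Type) [Field K] (A B b : ℤ) : Prop := ∃ N M e : K, (M ≠ 0 ∨ e ≠ 0) ∧
  N ^ 2 = (b : K) * M ^ 4 + ((-(A + B) : ℤ) : K) * M ^ 2 * e ^ 2 +
    ((A * B / b : ℤ) : K) * e ^ 4

/-- the squarefree `b ∣ A B` for which `C` has points everywhere locally -/
def ELS (A B : ℤ) : Set ℤ := {b | Squarefree b ∧ b ∣ A * B ∧ Solvable ℝ A B b ∧
  ∀ (p : ℕ) [Fact p.Prime], Solvable ℚ_[p] A B b}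

/-- the `b` in `ELS A B` for which the algorithm `φ` does not halt on the input
`y² - (b x⁴ - (A + B) x² + A B / b)` -/
def Undecided (φ : List (List ℤ) →. Bool) (A B : ℤ) : Set ℤ :=
  {b | b ∈ ELS A B ∧ ¬ (φ (quartic A B b)).Dom}

/-- the proportion `(log X) ^ (δ - (3 / 2) log 2)` -/
noncomputable def bound (δ : ℝ) (X : ℕ) : ℝ := (Real.log X) ^ (δ - 3 / 2 * Real.log 2)

/-- At the pair `(A, B)`: `A`, `B`, `A - B` are nonzero, `φ` is defined at all but the proportion
`bound δ X` of the curves `C` with points everywhere locally, and there are at least `1 / bound δ X` of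
these. -/
def Good (φ : List (List ℤ) →. Bool) (δ : ℝ) (X : ℕ) (A B : ℤ) : Prop :=
  A ≠ 0 ∧ B ≠ 0 ∧ A ≠ B ∧ ((Undecided φ A B).ncard : ℝ) ≤ bound δ X * ((ELS A B).ncard : ℝ) ∧
    (Real.log X) ^ (3 / 2 * Real.log 2 - δ) ≤ ((ELS A B).ncard : ℝ)

open Classical in
/-- **Theorem.** There is a partial computable function `φ` from the lists of lists of integers
(polynomials `f(x, y)`) to `{true, false}` such that
(1) if `φ(f)` is defined, then it is `true` if and only if `f` has infinitely many rational zeros;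
in fact `f` has no rational zeros then;
(2) let `A`, `B`, `A - B` be nonzero and let `b` be a squarefree divisor of `A B`: if the curve
`C : y² = b x⁴ - (A + B) x² + A B / b` does not have points everywhere locally, then `φ` is defined
at `C`;
(3) for all `D ≠ 0`, `δ, ε > 0` and `L` there is `X₀` such that for `X ≥ X₀` and
`|N₁|, |N₂| ≤ X ^ L` all the coprime pairs `(u, v)` of integers `N₁ < u ≤ N₁ + X`,
`N₂ < v ≤ N₂ + X` with at most `ε X ^ 2` exceptions are good: `φ` is defined at all but the proportion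
`(log X) ^ (δ - (3 / 2) log 2)` of the curves `C` with points everywhere locally for `A = D u`,
`B = D v`. -/
theorem result :
    ∃ φ : List (List ℤ) →. Bool, Partrec φ ∧
    (∀ L, ∀ r ∈ φ L, (r = true ↔ (Zeros L).Infinite)) ∧ (∀ L, (φ L).Dom → Zeros L = ∅) ∧
    (∀ A B b : ℤ, A ≠ 0 → B ≠ 0 → A ≠ B → Squarefree b → b ∣ A * B → b ∉ ELS A B →
      (φ (quartic A B b)).Dom) ∧
    ∀ (D : ℤ) (_ : D ≠ 0) (δ ε : ℝ) (L : ℕ) (_ : 0 < δ) (_ : 0 < ε),
    ∃ X₀ : ℕ, ∀ (N₁ N₂ : ℤ) (X : ℕ), X₀ ≤ X → |N₁| ≤ (X : ℤ) ^ L → |N₂| ≤ (X : ℤ) ^ L →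
      (((Ioc N₁ (N₁ + (X : ℤ)) ×ˢ Ioc N₂ (N₂ + (X : ℤ))).filter (fun t : ℤ × ℤ =>
        IsCoprime t.1 t.2 ∧ ¬ Good φ δ X (D * t.1) (D * t.2))).card : ℝ) ≤ ε * X ^ 2 := by
  have hre := Pool.Agent.TH841.AL.re_P
  refine ⟨fun L => (Part.assert (Pool.Agent.TH841.AL.P L) fun _ => Part.some ()).map
    (fun _ => false), Partrec.map hre (Computable.const false).to₂, ?_, ?_, ?_, ?_⟩
  · intro L r hr
    obtain ⟨u, hu, rfl⟩ := (Part.mem_map_iff _).1 hr
    have hP : Pool.Agent.TH841.AL.P L := (Part.mem_assert_iff.1 hu).1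
    have h1 : Zeros L = ∅ := Pool.Agent.TH841.AL.P_sound L hP
    constructor
    · intro h
      exact Bool.noConfusion h
    · intro h
      rw [h1] at h
      exact absurd Set.finite_empty h
  · rintro L ⟨hP, -⟩
    exact Pool.Agent.TH841.AL.P_sound L hP
  · intro A B b hA hB hAB hb hd hE
    exact ⟨Pool.Agent.TH841.AL.P_complete hA hB hAB hb hd (fun h => hE h.1), trivial⟩
  intro D hD δ ε L hδ hε
  have key : ∀ A B : ℤ, A ≠ 0 → B ≠ 0 → A ≠ B → ((Undecided (fun L =>
      (Part.assert (Pool.Agent.TH841.AL.P L) fun _ => Part.some ()).map (fun _ => false)) A B).ncard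
      : ℝ) ≤ ((Pool.Agent.TH841.FD.LF A B).ncard : ℝ) := by
    intro A B hA hB hAB
    refine Nat.cast_le.2 (le_trans (Set.ncard_le_ncard ?_ ?_)
      (Pool.Agent.TH841.AL.undecided_le hA hB hAB))
    · rintro b ⟨h1, h2⟩
      exact ⟨h1, fun h3 => h2 ⟨h3, trivial⟩⟩
    · exact (Pool.Agent.TH841.NO.sq_finite (mul_ne_zero hA hB)).subset fun b h => h.1
  obtain ⟨X1, h1⟩ := Pool.Agent.TH841.FD.pairs_ae Pool.Agent.TH841.FD.COVLf.covl D hD δ ε L hδ hε
  refine ⟨X1 + 3, fun N₁ N₂ X hX hN₁ hN₂ => ?_⟩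
  have e1 : N₁.natAbs ≤ X ^ L := by
    have : (N₁.natAbs : ℤ) ≤ (X : ℤ) ^ L := by rw [Int.natCast_natAbs]; exact hN₁
    exact_mod_cast this
  have e2 : N₂.natAbs ≤ X ^ L := by
    have : (N₂.natAbs : ℤ) ≤ (X : ℤ) ^ L := by rw [Int.natCast_natAbs]; exact hN₂
    exact_mod_cast this
  refine le_trans ?_ (h1 N₁ N₂ X (by omega) e1 e2)
  refine Nat.cast_le.2 ?_
  refine card_le_card_of_injOn (fun t : ℤ × ℤ => ((t.1 - N₁).toNat, (t.2 - N₂).toNat)) ?_ ?_
  · intro t ht
    rw [mem_coe, mem_filter, mem_product, mem_Ioc, mem_Ioc] at ht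
    obtain ⟨⟨⟨a1, a2⟩, a3, a4⟩, a5, a6⟩ := ht
    have b1 : N₁ + (((t.1 - N₁).toNat : ℕ) : ℤ) = t.1 := by omega
    have b2 : N₂ + (((t.2 - N₂).toNat : ℕ) : ℤ) = t.2 := by omega
    rw [mem_coe, mem_filter, mem_product, mem_Icc, mem_Icc]
    refine ⟨⟨⟨?_, ?_⟩, ?_, ?_⟩, ?_, ?_⟩
    · show 1 ≤ (t.1 - N₁).toNat
      omega
    · show (t.1 - N₁).toNat ≤ X
      omega
    · show 1 ≤ (t.2 - N₂).toNat
      omega
    · show (t.2 - N₂).toNat ≤ X
      omega
    · show IsCoprime (N₁ + (((t.1 - N₁).toNat : ℕ) : ℤ)) (N₂ + (((t.2 - N₂).toNat : ℕ) : ℤ))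
      rw [b1, b2]
      exact a5
    · intro hall
      apply a6
      obtain ⟨c1, c2, c3, c4⟩ := hall (D * t.1) (D * t.2) (by
        show D * t.1 = D * (N₁ + (((t.1 - N₁).toNat : ℕ) : ℤ))
        rw [b1]) (by
        show D * t.2 = D * (N₂ + (((t.2 - N₂).toNat : ℕ) : ℤ))
        rw [b2])
      have c4' : ((Pool.Agent.TH841.FD.LF (D * t.1) (D * t.2)).ncard : ℝ) ≤
        bound δ X * ((ELS (D * t.1) (D * t.2)).ncard : ℝ) := c4
      refine ⟨c1, c2, c3, (key _ _ c1 c2 c3).trans c4', ?_⟩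
      have hone : (1 : ℤ) ∈ ELS (D * t.1) (D * t.2) := by
        refine ⟨squarefree_one, one_dvd _, ⟨1, 1, 0, Or.inl one_ne_zero, ?_⟩, fun p _ =>
          ⟨1, 1, 0, Or.inl one_ne_zero, ?_⟩⟩
        · push_cast
          ring
        · push_cast
          ring
      have hc : (1 : ℤ) ∈ Pool.Agent.TH841.FD.LF (D * t.1) (D * t.2) :=
        Pool.Agent.TH841.FD.rat_mem c3 hone ⟨1, 1, 0, Or.inl one_ne_zero, by push_cast; ring⟩
      have hfin : (ELS (D * t.1) (D * t.2)).Finite :=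
        Pool.Agent.TH841.NO.sq_finite (a := -(D * t.1 + D * t.2)) (mul_ne_zero c1 c2)
      have hfin' : (Pool.Agent.TH841.FD.LF (D * t.1) (D * t.2)).Finite :=
        hfin.subset fun x hx => hx.1
      have h3 : 1 ≤ (Pool.Agent.TH841.FD.LF (D * t.1) (D * t.2)).ncard := by
        rw [Nat.one_le_iff_ne_zero, Ne, Set.ncard_eq_zero hfin']
        exact (Set.nonempty_of_mem hc).ne_empty
      have h4 : (1 : ℝ) ≤ bound δ X * ((ELS (D * t.1) (D * t.2)).ncard : ℝ) :=
        le_trans (by exact_mod_cast h3) c4'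
      have hlog : 0 < Real.log X := Real.log_pos (by
        have : 3 ≤ X := by omega
        have : (3 : ℝ) ≤ X := by exact_mod_cast this
        linarith)
      have h5 : (Real.log X) ^ (3 / 2 * Real.log 2 - δ) * bound δ X = 1 := by
        unfold bound
        rw [← Real.rpow_add hlog]
        norm_num
      have h6 : 0 < (Real.log X) ^ (3 / 2 * Real.log 2 - δ) := Real.rpow_pos_of_pos hlog _
      calc (Real.log X) ^ (3 / 2 * Real.log 2 - δ)
          = (Real.log X) ^ (3 / 2 * Real.log 2 - δ) * 1 := by ring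
        _ ≤ (Real.log X) ^ (3 / 2 * Real.log 2 - δ) *
              (bound δ X * ((ELS (D * t.1) (D * t.2)).ncard : ℝ)) :=
            mul_le_mul_of_nonneg_left h4 h6.le
        _ = ((Real.log X) ^ (3 / 2 * Real.log 2 - δ) * bound δ X) *
              ((ELS (D * t.1) (D * t.2)).ncard : ℝ) := by ring
        _ = _ := by rw [h5, one_mul]
  · intro s hs t ht hst
    rw [mem_coe, mem_filter, mem_product, mem_Ioc, mem_Ioc] at hs ht
    obtain ⟨⟨⟨a1, a2⟩, a3, a4⟩, -⟩ := hs
    obtain ⟨⟨⟨b1, b2⟩, b3, b4⟩, -⟩ := ht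
    have h7 : ((s.1 - N₁).toNat, (s.2 - N₂).toNat) = ((t.1 - N₁).toNat, (t.2 - N₂).toNat) := hst
    rw [Prod.mk.injEq] at h7
    ext
    · omega
    · omega

end Pool.Agent.Results.MP_d6ddbd_nt.CoprimePairsByFiniteChecks
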