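import Pool.Agent.Results.MP_d6ddbd_nt.CoprimePairsByFiniteChecks
import Pool.Agent.X257.AE.ApproxZero

/-!
# A partial algorithm for curves of genus one, at the rational approximations of almost every real number

The partial computable function `φ` decides correctly (where it is defined) whether `f(x, y) = 0` has
infinitely many rational zeros. For a rational number `t = u / v` in lowest terms and `D ≠ 0` consider the
curves of genus one `C_β : y² = β x⁴ - (A + B) x² + A B / β`, `A = D u`, `B = D v`, `β` a squarefree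
divisor of `A B`. We show: for almost every real `α`, for all `D` and `c`, for almost all the rational
numbers `t = u / v` with `|α - t| ≤ c / v²` (for `c = 1`: among them all the convergents of the
continued fraction of `α`) there are at least `(log v) ^ η` curves `C_β` with points everywhere locally,
and `φ` is defined at all of them except for a proportion at most `(log v) ^ (-η)`, for every
`η < (3 / 2) log 2`. Here almost all means that the sum of `1 / log v` over the exceptional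
approximations with `v ≤ Q` is `o (log log Q)`.
-/

set_option autoImplicit false

namespace Pool.Agent.Results.MP_d6ddbd_nt.RationalApproximations

open Finset Filter MeasureTheory

open Pool.Agent.Results.MP_d6ddbd_nt.CoprimePairsByFiniteChecks
  (Zeros quartic Solvable ELS Undecided bound)

/-- For `A = D u`, `B = D v`, `t = u / v` in lowest terms: `A`, `B`, `A - B` are not zero, there are at
least `(log v) ^ η` curves `C_β` with points everywhere locally, and `φ` is defined at all of them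
except for at most `(log v) ^ (-η)` times their number. -/
def Good (φ : List (List ℤ) →. Bool) (D : ℤ) (η : ℝ) (t : ℚ) : Prop :=
  D * t.num ≠ 0 ∧ D * t.den ≠ 0 ∧ D * t.num ≠ D * t.den ∧
    ((Undecided φ (D * t.num) (D * t.den)).ncard : ℝ) ≤
      (Real.log t.den) ^ (-η) * ((ELS (D * t.num) (D * t.den)).ncard : ℝ) ∧
    (Real.log t.den) ^ η ≤ ((ELS (D * t.num) (D * t.den)).ncard : ℝ)

/-- The rational numbers `t` with denominator `3 ≤ v ≤ Q` and `|α - t| ≤ c / v²` which are not good. -/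
def Exceptions (φ : List (List ℤ) →. Bool) (D : ℤ) (η α : ℝ) (c Q : ℕ) : Set ℚ :=
  {t | 3 ≤ t.den ∧ t.den ≤ Q ∧ |α - t| ≤ c / (t.den : ℝ) ^ 2 ∧ ¬ Good φ D η t}

/-! ### Proof -/

/-- the exceptional pairs -/
def Bad (φ : List (List ℤ) →. Bool) (D : ℤ) (q : ℝ) : Set (ℤ × ℤ) :=
  {x | IsCoprime x.1 x.2 ∧ 3 ≤ x.2 ∧ ¬ (D * x.1 ≠ 0 ∧ D * x.2 ≠ 0 ∧ D * x.1 ≠ D * x.2 ∧
    ((Undecided φ (D * x.1) (D * x.2)).ncard : ℝ) ≤
      (Real.log x.2) ^ (-q) * ((ELS (D * x.1) (D * x.2)).ncard : ℝ) ∧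
    (Real.log x.2) ^ q ≤ ((ELS (D * x.1) (D * x.2)).ncard : ℝ))}

theorem log_le {V : ℤ} {X : ℕ} (hX : 4 ≤ X) (hV : |V| ≤ (X : ℤ) ^ 4) {v : ℤ} (h3 : 3 ≤ v)
    (hv : v ≤ V + X) : Real.log v ≤ 5 * Real.log X := by
  have h1 : v ≤ (X : ℤ) ^ 5 := by
    have h2 := le_abs_self V
    have h4 : (4 : ℤ) ≤ X := by exact_mod_cast hX
    have h5 : (X : ℤ) ≤ (X : ℤ) ^ 4 := le_self_pow₀ (by linarith) (by norm_num)
    have h6 : (X : ℤ) ^ 5 = (X : ℤ) ^ 4 * X := by ring
    have h7 : (0 : ℤ) ≤ (X : ℤ) ^ 4 := by positivity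
    rw [h6]
    nlinarith
  have h2 : (v : ℝ) ≤ (X : ℝ) ^ 5 := by exact_mod_cast h1
  have h4 : (0 : ℝ) < v := by
    have : (0 : ℤ) < v := by linarith
    exact_mod_cast this
  have h5 := Real.log_le_log h4 h2
  rw [Real.log_pow] at h5
  exact_mod_cast h5

open Classical in
theorem box_bad (φ : List (List ℤ) →. Bool) (D : ℤ)
    (hφ : ∀ (δ ε : ℝ), 0 < δ → 0 < ε → ∃ X₀ : ℕ, ∀ (N₁ N₂ : ℤ) (X : ℕ), X₀ ≤ X →
      |N₁| ≤ (X : ℤ) ^ 4 → |N₂| ≤ (X : ℤ) ^ 4 →
      (((Ioc N₁ (N₁ + (X : ℤ)) ×ˢ Ioc N₂ (N₂ + (X : ℤ))).filter (fun t : ℤ × ℤ =>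
        IsCoprime t.1 t.2 ∧ ¬ Pool.Agent.Results.MP_d6ddbd_nt.CoprimePairsByFiniteChecks.Good φ δ X
          (D * t.1) (D * t.2))).card : ℝ) ≤ ε * X ^ 2)
    {q : ℝ} (hq0 : 0 ≤ q) (hq : q < 3 / 2 * Real.log 2) (ε : ℝ) (hε : 0 < ε) :
    ∃ X0 : ℕ, Pool.Agent.X257.AE.BoxAvg (Pool.Agent.X257.AE.indP (Bad φ D q)) ε X0 := by
  set δ := (3 / 2 * Real.log 2 - q) / 2 with hδdef
  have hδ : 0 < δ := by rw [hδdef]; linarith
  have hexp : δ - 3 / 2 * Real.log 2 = -q - δ := by rw [hδdef]; ring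
  have hexp' : 3 / 2 * Real.log 2 - δ = q + δ := by rw [hδdef]; ring
  obtain ⟨X1, hX1⟩ := hφ δ ε hδ hε
  have hlog : Tendsto (fun x : ℕ => (Real.log (x : ℝ)) ^ δ) atTop atTop :=
    (tendsto_rpow_atTop hδ).comp (Real.tendsto_log_atTop.comp tendsto_natCast_atTop_atTop)
  obtain ⟨X2, hX2⟩ := (hlog.eventually_ge_atTop ((5 : ℝ) ^ q)).exists_forall_of_atTop
  refine ⟨X1 + X2 + 4, fun X U V hX hU hV => ?_⟩
  have h0 : ∑ t ∈ Ioc U (U + X) ×ˢ Ioc V (V + X), Pool.Agent.X257.AE.indP (Bad φ D q) t =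
      (((Ioc U (U + X) ×ˢ Ioc V (V + X)).filter (fun t => t ∈ Bad φ D q)).card : ℝ) := by
    unfold Pool.Agent.X257.AE.indP
    rw [sum_ite]
    simp
  rw [h0]
  refine le_trans (Nat.cast_le.2 (card_le_card fun t ht => ?_)) (hX1 U V X (by omega) hU hV)
  obtain ⟨ht1, ht2, ht3, ht4⟩ := mem_filter.1 ht
  refine mem_filter.2 ⟨ht1, ht2, fun h => ht4 ?_⟩
  obtain ⟨k1, k2, k3, k4, k5⟩ := h
  have hXr : (4 : ℝ) ≤ X := by
    have : 4 ≤ X := by omega
    exact_mod_cast this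
  have hlX : 0 < Real.log X := Real.log_pos (by linarith)
  have hv3 : (3 : ℝ) ≤ t.2 := by exact_mod_cast ht3
  have hlv : 0 < Real.log t.2 := Real.log_pos (by linarith)
  have hle : Real.log t.2 ≤ 5 * Real.log X := by
    rw [mem_product, mem_Ioc, mem_Ioc] at ht1
    exact log_le (by omega) hV ht3 ht1.2.2
  refine ⟨k1, k2, k3, k4.trans (mul_le_mul_of_nonneg_right ?_ (Nat.cast_nonneg _)), le_trans ?_ k5⟩
  · have h1 : (5 * Real.log X) ^ (-q) ≤ (Real.log t.2) ^ (-q) :=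
      Real.rpow_le_rpow_of_nonpos hlv hle (by linarith)
    refine le_trans ?_ h1
    unfold bound
    rw [hexp, Real.mul_rpow (by norm_num) hlX.le, sub_eq_add_neg, Real.rpow_add hlX, mul_comm]
    refine mul_le_mul_of_nonneg_right ?_ (by positivity)
    rw [Real.rpow_neg hlX.le, Real.rpow_neg (by norm_num)]
    exact inv_anti₀ (by positivity) (hX2 X (by omega))
  · have h1 : (Real.log t.2) ^ q ≤ (5 * Real.log X) ^ q := Real.rpow_le_rpow hlv.le hle hq0
    refine h1.trans ?_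
    rw [hexp', Real.mul_rpow (by norm_num) hlX.le, Real.rpow_add hlX, mul_comm]
    exact mul_le_mul_of_nonneg_left (hX2 X (by omega)) (by positivity)

/-- **Theorem.** There is a partial computable function `φ` from the lists of lists of integers
(polynomials `f(x, y)`) to `{true, false}` such that
(1) if `φ(f)` is defined, then it is `true` if and only if `f` has infinitely many rational zeros; in fact
`f` has no rational zeros then;
(2) let `A`, `B`, `A - B` be nonzero and let `β` be a squarefree divisor of `A B`: if the curve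
`C_β : y² = β x⁴ - (A + B) x² + A B / β` does not have points everywhere locally, then `φ` is defined at
`C_β`;
(3) for almost every real `α`, for all `D ≠ 0`, `0 ≤ η < (3 / 2) log 2`, `c` and `ε > 0`, for all large
`Q` the sum of `1 / log v` over the rational numbers `t = u / v` (in lowest terms) with `3 ≤ v ≤ Q` and
`|α - t| ≤ c / v²` which are not good for `φ`, `D` and `η` is at most `ε log log Q`. -/
theorem result :
    ∃ φ : List (List ℤ) →. Bool, Partrec φ ∧
    (∀ L, ∀ r ∈ φ L, (r = true ↔ (Zeros L).Infinite)) ∧ (∀ L, (φ L).Dom → Zeros L = ∅) ∧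
    (∀ A B β : ℤ, A ≠ 0 → B ≠ 0 → A ≠ B → Squarefree β → β ∣ A * B → β ∉ ELS A B →
      (φ (quartic A B β)).Dom) ∧
    ∀ᵐ α : ℝ, ∀ D : ℤ, D ≠ 0 → ∀ η : ℝ, 0 ≤ η → η < 3 / 2 * Real.log 2 → ∀ c : ℕ,
      ∀ ε : ℝ, 0 < ε → ∀ᶠ Q : ℕ in atTop,
        ∑ᶠ t ∈ Exceptions φ D η α c Q, 1 / Real.log t.den ≤ ε * Real.log (Real.log Q) := by
  classical
  obtain ⟨φ, h1, h2, h3, h4, h5⟩ :=
    Pool.Agent.Results.MP_d6ddbd_nt.CoprimePairsByFiniteChecks.result
  refine ⟨φ, h1, h2, h3, h4, ?_⟩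
  have h6 : ∀ᵐ α : ℝ, ∀ D : ℤ, D ≠ 0 → ∀ q : ℚ, 0 ≤ (q : ℝ) → (q : ℝ) < 3 / 2 * Real.log 2 →
      ∀ c : ℕ, ∀ ε : ℝ, 0 < ε → ∀ᶠ Q : ℕ in atTop, ∑ᶠ t ∈ Pool.Agent.X257.AE.Ap α c Q,
        Pool.Agent.X257.AE.indP (Bad φ D q) (Pool.Agent.X257.AE.nd t) / Real.log t.den ≤
          ε * Real.log (Real.log Q) := by
    rw [ae_all_iff]
    intro D
    by_cases hD : D ≠ 0
    swap
    · exact Eventually.of_forall fun α h => absurd h hD
    rw [ae_all_iff]
    intro _
    rw [ae_all_iff]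
    intro q
    by_cases hq : 0 ≤ (q : ℝ) ∧ (q : ℝ) < 3 / 2 * Real.log 2
    swap
    · exact Eventually.of_forall fun α h h' => absurd ⟨h, h'⟩ hq
    have h7 : ∀ᵐ α : ℝ, ∀ c : ℕ, ∀ ε : ℝ, 0 < ε → ∀ᶠ Q : ℕ in atTop,
        ∑ᶠ t ∈ Pool.Agent.X257.AE.Ap α c Q,
        Pool.Agent.X257.AE.indP (Bad φ D q) (Pool.Agent.X257.AE.nd t) / Real.log t.den ≤
          ε * Real.log (Real.log Q) := by
      rw [ae_all_iff]
      intro c
      exact Pool.Agent.X257.AE.ae_ap_zero (fun ε hε => box_bad φ D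
        (fun δ ε hδ hε => h5 D hD δ ε 4 hδ hε) hq.1 hq.2 ε hε) c
    filter_upwards [h7] with α hα _ _ c ε hε
    exact hα c ε hε
  filter_upwards [h6] with α hα D hD η hη hη' c ε hε
  obtain ⟨q, hq1, hq2⟩ := exists_rat_btwn hη'
  filter_upwards [hα D hD q (hη.trans hq1.le) hq2 c ε hε] with Q hQ
  refine le_trans ?_ hQ
  have hfin : (Pool.Agent.X257.AE.Ap α c Q).Finite := by
    have hmaps : ∀ t ∈ Pool.Agent.X257.AE.Ap α c Q, Pool.Agent.X257.AE.nd t ∈
        ((range Q).biUnion (fun j => Pool.Agent.X257.AE.Pr c j (Pool.Agent.X257.AE.pre 4 j α)) :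
          Finset (ℤ × ℤ)) := by
      rintro t ⟨a1, a2, a3⟩
      obtain ⟨j, a4, a5, a6⟩ := Pool.Agent.X257.AE.nd_mem a1 a3
      rw [mem_biUnion]
      refine ⟨j, ?_, a6⟩
      rw [mem_range]
      have : j < 2 ^ j := Nat.lt_two_pow_self
      omega
    exact Set.Finite.of_injOn (f := Pool.Agent.X257.AE.nd) (fun t ht => mem_coe.2 (hmaps t ht))
      Pool.Agent.X257.AE.nd_inj.injOn (finite_toSet _)
  have hsub : Exceptions φ D η α c Q ⊆ Pool.Agent.X257.AE.Ap α c Q := by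
    rintro t ⟨a1, a2, a3, -⟩
    exact ⟨by omega, a2, a3⟩
  have hfin' := hfin.subset hsub
  rw [finsum_mem_eq_finite_toFinset_sum _ hfin, finsum_mem_eq_finite_toFinset_sum _ hfin']
  have h8 : ∀ t ∈ hfin'.toFinset, 1 / Real.log (t.den : ℝ) =
      Pool.Agent.X257.AE.indP (Bad φ D q) (Pool.Agent.X257.AE.nd t) / Real.log t.den := by
    intro t ht
    obtain ⟨a1, -, -, a4⟩ := hfin'.mem_toFinset.1 ht
    have h9 : Pool.Agent.X257.AE.nd t ∈ Bad φ D q := by
      refine ⟨?_, ?_, ?_⟩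
      · rw [Int.isCoprime_iff_gcd_eq_one]
        exact t.reduced
      · change (3 : ℤ) ≤ (t.den : ℤ)
        exact_mod_cast a1
      · rintro ⟨k1, k2, k3, k4, k5⟩
        apply a4
        have hd : (3 : ℝ) ≤ t.den := by exact_mod_cast a1
        have hl1 : 1 ≤ Real.log t.den := by
          rw [Real.le_log_iff_exp_le (by linarith)]
          have := Real.exp_one_lt_d9
          linarith
        have e1 : ((Pool.Agent.X257.AE.nd t).2 : ℝ) = (t.den : ℝ) := by
          change (((t.den : ℤ)) : ℝ) = (t.den : ℝ)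
          push_cast
          rfl
        rw [e1] at k4 k5
        refine ⟨k1, k2, k3, k4.trans (mul_le_mul_of_nonneg_right ?_ (Nat.cast_nonneg _)),
          le_trans ?_ k5⟩
        · exact Real.rpow_le_rpow_of_exponent_le hl1 (by linarith)
        · exact Real.rpow_le_rpow_of_exponent_le hl1 hq1.le
    unfold Pool.Agent.X257.AE.indP
    rw [if_pos h9]
  rw [sum_congr rfl h8]
  refine sum_le_sum_of_subset_of_nonneg (fun t ht => ?_) fun t _ _ => ?_
  · rw [hfin.mem_toFinset]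
    exact hsub (hfin'.mem_toFinset.1 ht)
  · exact div_nonneg (Pool.Agent.X257.AE.indP_nonneg _ _) (Real.log_natCast_nonneg t.den)

end Pool.Agent.Results.MP_d6ddbd_nt.RationalApproximations
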